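import Pool.Agent.H95.OddCyc

set_option autoImplicit false

theorem Pool.Agent.Results.MP_2c59d0_an.Bounded.result (γ : ℝ) (hγ : 0 < γ) (m : ℕ) (hm : 1 ≤ m)
    (x : ℕ → ℝ) (hx : ∀ i < 2 * m + 1, 0 < x i)
    (hr : ∀ n, x (n + (2 * m + 1)) = γ + x n / x (n + (2 * m - 1))) : BddAbove (Set.range x) :=
  Pool.Agent.H95.OddCyc.bdd hγ hm x hx hr
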